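import Pool.Agent.Helper49.SF.Main
import Pool.Graph.R_seed8.W559.Wr.All

/-!
MP_4d1008_ag: smooth projective models, and regular proper models over the integers, of the
quotients of smooth projective varieties of arbitrary dimension over (finite) fields of
characteristic `p` by finite groups `G` such that the inertia groups of the closed points have
order not divisible by `p ^ 2` and their elements of order `p` act linearly in suitable etale
coordinates (at the points which are not rational over the base field: the inertia group acts
linearly in suitable etale coordinates).

Sketch of the proof. By an average over the cosets of a subgroup of order `p` (a relative version of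
the theorem of Maschke) the inertia groups of the rational points, and then the inertia groups of
all points, act linearly in suitable etale coordinates. The etale coordinates at finitely many
points, which can be written as quotients of forms of one degree `e`, are added to the homogeneous
coordinates (of degree `e`), together with their conjugates. We consider the cone over `V` in this
embedding, and the valuations with maximal value one on the homogeneous coordinates. Near every
point of the cone outside of its vertex there are etale coordinates among the homogeneous
coordinates whose span is stable under the inertia group. The homogeneous ideals generated by the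
differences `h z - z` of the coordinates and by the iterated differences `(c - 1) ^ u (h z - z)`,
`u < p`, relative to the former are permuted by the group. Blowing up suitable products of them
gives an equivariant projective modification, which is described by finitely many algebras graded by
a free abelian group. At every valuation it is compared with a local model, which is given by a
basis of the span of the etale coordinates adapted to the operators `(c - 1) ^ u (h - 1)`. The
inertia groups of the modification have order one or `p`, their ideals of fixed points are
invertible, and the criterion of Kiraly and Lütkebohmert shows that the algebras of invariants are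
smooth. The degrees (including the degree on the cone) are then removed one at a time by weighted
blow-ups, and a smooth projective model is obtained.
-/

set_option autoImplicit false

open AlgebraicGeometry CategoryTheory MvPolynomial

namespace Pool.Agent.Results.MP_4d1008_ag.LocallyLinearGroups

/-- The field extension `K` of `k` is the function field of a smooth projective variety over `k`:
there are nonzero elements `z 0, …, z l` (homogeneous coordinates) whose ratios generate `K` and
such that every algebra `k[z 0 / z i, …, z l / z i]` is smooth over `k`. -/
def HasSmoothProjectiveModel (k K : Type) [Field k] [Field K] [Algebra k K] : Prop :=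
  ∃ (l : ℕ) (z : Fin (l + 1) → K), (∀ i, z i ≠ 0) ∧
    (∀ i, Algebra.Smooth k (Algebra.adjoin k (Set.range fun j => z j / z i))) ∧
    IntermediateField.adjoin k (Set.range fun j => z j / z 0) = ⊤

/-- Every integral scheme of finite type over `ℤ` with function field isomorphic to the field `F`
has a regular model which is proper over `ℤ`. -/
def HasRegularModels (F : Type) [Field F] : Prop :=
  ∀ (Y : Scheme.{0}) (_ : IsIntegral Y) (s : Y ⟶ Spec (CommRingCat.of ℤ))
    (_ : LocallyOfFiniteType s) (_ : QuasiCompact s) (_ : Nonempty (Y.functionField ≃+* F)),
    ∃ (X' : Scheme.{0}) (_ : IsIntegral X') (g : X' ⟶ Spec (CommRingCat.of ℤ)),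
      IsProper g ∧
      (∀ x : X',
        (((Module.finrank (IsLocalRing.ResidueField (X'.presheaf.stalk x))
            (IsLocalRing.CotangentSpace (X'.presheaf.stalk x)) : ℕ∞)) : WithBot ℕ∞)
          = ringKrullDim (X'.presheaf.stalk x)) ∧
      Nonempty (X'.functionField ≃+* Y.functionField)

section

variable {k K : Type} [Field k] [Field K] [Algebra k K]

/-- The local ring of `B` at the prime ideal `q`, as a subring of the field `K`. -/
def localRing (B : Subalgebra k K) (q : Ideal B) (hq : q.IsPrime) : Subalgebra k K where
  carrier := {x | ∃ a b : B, b ∉ q ∧ x * b = a}
  mul_mem' := (Pool.Agent.W559.Et.locR B q hq).mul_mem'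
  add_mem' := (Pool.Agent.W559.Et.locR B q hq).add_mem'
  algebraMap_mem' := (Pool.Agent.W559.Et.locR B q hq).algebraMap_mem'

/-- The inertia group of the local ring `O`: the elements `g` of `G` which map `O` to `O` and act
trivially on the residue field of `O`, i.e. for all `x` in `O` the element `g x - x` of `O` is not
invertible in `O`. -/
def inertia (G : Subgroup (K ≃ₐ[k] K)) (O : Subalgebra k K) : Set (K ≃ₐ[k] K) :=
  {g | g ∈ G ∧ ∀ x ∈ O, g x ∈ O ∧ ∀ x' ∈ O, (g x - x) * x' ≠ 1}

/-- The elements of `S` act linearly in etale coordinates: there are elements `y 0, …, y (n - 1)` of
`O` such that `O` is formally etale over the polynomial ring `k[y 0, …, y (n - 1)]` and such that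
the span over `k` of the `y i` is stable under the elements of `S`. -/
def ActLinearly (S : Set (K ≃ₐ[k] K)) (O : Subalgebra k K) : Prop :=
  ∃ (n : ℕ) (y : Fin n → O),
    ((aeval y : MvPolynomial (Fin n) k →ₐ[k] O).toRingHom).FormallyEtale ∧
    ∀ g ∈ S, ∀ i, g (y i : K) ∈ Submodule.span k (Set.range fun j => (y j : K))

/-- The condition on the inertia groups of the closed points `m` of the spectrum of `B`:

* the order of the inertia group is not divisible by `p ^ 2`;
* each element of order `p` of the inertia group acts linearly in etale coordinates;
* if the point is not rational over `k`, i.e. if the residue field `B / m` is not equal to `k`, then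
  the inertia group acts linearly in etale coordinates (if `k` is algebraically closed, then all
  closed points are rational, and there is no such condition). -/
def IsMild (p : ℕ) (G : Subgroup (K ≃ₐ[k] K)) (B : Subalgebra k K) : Prop :=
  ∀ (m : Ideal B) (hm : m.IsMaximal),
    ¬ p ^ 2 ∣ Nat.card (inertia G (localRing B m hm.isPrime)) ∧
    (∀ g ∈ inertia G (localRing B m hm.isPrime), orderOf g = p →
      ActLinearly {g} (localRing B m hm.isPrime)) ∧
    ((∃ b : B, ∀ c : k, b - algebraMap k B c ∉ m) →
      ActLinearly (inertia G (localRing B m hm.isPrime)) (localRing B m hm.isPrime))

end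

section

variable {k K : Type} [Field k] [Field K] [Algebra k K]

lemma mildG_of_isMild {p : ℕ} {G : Subgroup (K ≃ₐ[k] K)} [Finite G] {B : Subalgebra k K}
    (h : IsMild p G B) : Pool.Agent.Helper49.SF.MildG p G.subtype B := by
  intro m hm
  obtain ⟨h1, h2, h3⟩ := h m hm
  refine ⟨?_, ?_, ?_⟩
  · let e : Pool.Agent.Helper49.SF.IGrp G.subtype m hm.isPrime ≃
        inertia G (localRing B m hm.isPrime) :=
      { toFun := fun g => ⟨g.1.1, g.1.2, g.2⟩
        invFun := fun g => ⟨⟨g.1, g.2.1⟩, g.2.2⟩
        left_inv := fun _ => rfl
        right_inv := fun _ => rfl }
    rw [Nat.card_congr e]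
    exact h1
  · intro g hg hgp
    obtain ⟨n, y, hy, hl⟩ := h2 g.1 ⟨g.2, hg⟩ (by rw [← hgp]; exact Subgroup.orderOf_coe g)
    exact ⟨n, y, hy, fun i => hl _ rfl i⟩
  · intro hb
    obtain ⟨n, y, hy, hl⟩ := h3 hb
    exact ⟨n, y, hy, fun g hg i => hl g.1 ⟨g.2, hg⟩ i⟩

end

/-- Let `k` be a perfect field of characteristic `p`, let `V` be a smooth projective variety over
`k` with function field `K` and homogeneous coordinates `z 0, …, z N`, and let `G` be a finite group
of automorphisms of `K` over `k` which act linearly on the homogeneous coordinates. Assume that the
inertia groups of the closed points of `V` satisfy the condition `IsMild`: their orders are not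
divisible by `p ^ 2` and their elements of order `p` (for the points which are not rational over
`k`: the inertia group) act linearly in suitable etale coordinates.

Then the function field of the quotient `V / G` is the function field of a smooth projective variety
over `k`, and if `k` is finite, then every integral scheme of finite type over `ℤ` which is
birational to `V / G` has a regular model proper over `ℤ`. -/
theorem result (p : ℕ) [Fact p.Prime] (k : Type) [Field k] [PerfectField k] [CharP k p]
    (K : Type) [Field K] [Algebra k K] (N : ℕ) (z : Fin (N + 1) → K) (hz : ∀ i, z i ≠ 0)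
    (hV : ∀ j, Algebra.Smooth k (Algebra.adjoin k (Set.range fun i => z i / z j)))
    (hK : IntermediateField.adjoin k {x | ∃ i j, x = z i / z j} = ⊤)
    (G : Subgroup (K ≃ₐ[k] K)) [Finite G]
    (hG : ∀ g ∈ G, ∀ i, g (z i) ∈ Submodule.span k (Set.range z))
    (hm : ∀ j, IsMild p G (Algebra.adjoin k (Set.range fun i => z i / z j))) :
    HasSmoothProjectiveModel k (IntermediateField.fixedField G) ∧
    (Finite k → HasRegularModels (IntermediateField.fixedField G)) := by
  have hch : ∀ j, Pool.Agent.Helper49.SE.Ch (⊥ : Subalgebra k K) z j =
      Algebra.adjoin k (Set.range fun i => z i / z j) := fun j => bot_sup_eq _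
  have h0 : Pool.Agent.W559.Wr.SPMR k (IntermediateField.fixedField G)
      ((⊥ : Subalgebra k K).comap (IntermediateField.fixedField G).val) := by
    refine Pool.Agent.Helper49.SF.models_mild (G := G) p z hz G.subtype
      (fun g i => hG g g.2 i) (fun g hg => Subtype.ext hg) hK ?_ ?_
      (IntermediateField.fixedField G) ?_
    · intro j
      rw [hch]
      exact hV j
    · intro j
      rw [hch]
      exact mildG_of_isMild (hm j)
    · intro a
      rw [IntermediateField.mem_fixedField_iff]
      exact ⟨fun h g => h g g.2, fun h g hg => h ⟨g, hg⟩⟩
  have h1 : HasSmoothProjectiveModel k (IntermediateField.fixedField G) := by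
    have h2 : (⊥ : Subalgebra k K).comap (IntermediateField.fixedField G).val = ⊥ := by
      rw [eq_bot_iff]
      intro x hx
      obtain ⟨c, hc⟩ := Algebra.mem_bot.1 hx
      exact Algebra.mem_bot.2 ⟨c, Subtype.ext hc⟩
    rw [h2] at h0
    obtain ⟨l, w, hw, hs, ht⟩ := h0
    refine ⟨l, w, hw, fun i => ?_, ?_⟩
    · have h3 := hs i
      rwa [bot_sup_eq] at h3
    · rw [eq_top_iff, ← ht, IntermediateField.adjoin_le_iff]
      rintro x (hx | hx)
      · obtain ⟨c, rfl⟩ := Algebra.mem_bot.1 hx
        exact IntermediateField.algebraMap_mem _ c
      · exact IntermediateField.subset_adjoin k _ hx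
  refine ⟨h1, ?_⟩
  intro hfin Y _ s _ _ hY
  obtain ⟨X', hX', g, h2, h3, ⟨h4⟩⟩ := Pool.Agent.W559.Wr.regular_of_spm h1
  obtain ⟨ε⟩ := hY
  exact ⟨X', hX', g, h2, h3, ⟨h4.trans ε.symm⟩⟩

end Pool.Agent.Results.MP_4d1008_ag.LocallyLinearGroups
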