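import Pool.Agent.Helper50.EX.FinP2
import Pool.Agent.Helper50.EX.Prod

/-!
MP_4d1008_ag: regular proper models over the integers of the quotients `V / G` and `ℙ(V) / G` of a
representation `V` of arbitrary dimension over a finite field `k` of characteristic `p`, for all
finite groups `G` whose `p`-subgroups act on `V` through one-parameter groups `a ↦ (1 + u) ^ a`,
`u ^ p = 0`; for example for all subgroups `G` of `GL₂(k) × H`, where `H` is a finite group of order
prime to `p`, and all representations `V` of `GL₂(k) × H` which are polynomial of degree less than
`p` on `GL₂(k)`, up to powers of the determinant (such as the direct sums of representations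
`Sym^a ⊗ det^m ⊗ W` with `a < p`, `W` a representation of `H`).

The stabilizers of the points may have Sylow `p`-subgroups which are elementary abelian of
arbitrary rank, and `G` is not assumed to be solvable (for example `G = SL₂(F_q) × H`).

Sketch of the proof. Let `Φ` be the finite group of linear forms generated by the orbits of the
homogeneous coordinates. Blowing up products of ideals generated by sets of elements of `Φ` one
gets an equivariant projective modification of `ℙ(V)`, described by algebras `C` graded by a free
abelian group (Laurent polynomials over the function field), on which all the quotients of the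
elements of `Φ` have monomial values and the inertia groups are `p`-groups. A `p`-subgroup of `G`
acts on `Φ` by `g ↦ (1 + u) ^ a(g)`, where `1 + u` is one of its elements and `a(g) ∈ k` (binomial
series, which stops before `u ^ p`). Hence at every point with inertia group `I` there are a
`G`-invariant element `X` and for every `c ∈ C` a polynomial `P` over the local ring with
`g c = P (a(g) X)` for all `g ∈ I`, and for a suitable `b` the linear coefficient of `P` is a unit.
By interpolation and the lemma of Nakayama the local ring is generated by `b` over the invariants
of `I`, which are therefore regular. So the algebras of invariants are smooth over `k`. The degrees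
are then removed one at a time: the quotients by the one-dimensional tori have tame singularities,
which are resolved by weighted blow-ups which are compatible on the charts.
-/

set_option autoImplicit false

open AlgebraicGeometry CategoryTheory MvPolynomial

namespace Pool.Agent.Results.MP_4d1008_ag.OneParameterQuotients

open Matrix

/-- The field of rational functions over `k` in `n` variables (the function field of affine
`n`-space). -/
abbrev RatFun (k : Type) [Field k] (n : ℕ) : Type := FractionRing (MvPolynomial (Fin n) k)

/-- The `i`-th variable, as a rational function. -/
noncomputable def var (k : Type) [Field k] {n : ℕ} (i : Fin n) : RatFun k n :=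
  algebraMap (MvPolynomial (Fin n) k) (RatFun k n) (X i)

/-- The function field of projective `n`-space over `k`: the subfield of the field of rational
functions in the homogeneous coordinates `x_0, ..., x_n` which is generated over `k` by the
quotients `x_i / x_j`. -/
noncomputable def projFun (k : Type) [Field k] (n : ℕ) : Subfield (RatFun k (n + 1)) :=
  (IntermediateField.adjoin k {f | ∃ i j : Fin (n + 1), f = var k i / var k j}).toSubfield

/-- The automorphism of the field of rational functions which extends an automorphism of the
polynomial ring. -/
noncomputable def extend {k : Type} [Field k] {n : ℕ}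
    (φ : MvPolynomial (Fin n) k ≃ₐ[k] MvPolynomial (Fin n) k) : RatFun k n →+* RatFun k n :=
  (IsFractionRing.fieldEquivOfAlgEquiv k (RatFun k n) (RatFun k n) φ : RatFun k n →+* RatFun k n)

/-- The rational functions which are invariant under all `φ g`: the function field of the quotient
of affine space. -/
noncomputable def invariants {k : Type} [Field k] {n : ℕ} {G : Type}
    (φ : G → (MvPolynomial (Fin n) k ≃ₐ[k] MvPolynomial (Fin n) k)) : Subfield (RatFun k n) :=
  ⨅ g : G, RingHom.eqLocusField (extend (φ g)) (RingHom.id (RatFun k n))

/-- The function field of the quotient of projective space: the elements of the function field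
of projective space which are invariant under all `φ g`. -/
noncomputable def projInvariants {k : Type} [Field k] {n : ℕ} {G : Type}
    (φ : G → (MvPolynomial (Fin (n + 1)) k ≃ₐ[k] MvPolynomial (Fin (n + 1)) k)) :
    Subfield (RatFun k (n + 1)) :=
  projFun k n ⊓ invariants φ

theorem mem_invariants {k : Type} [Field k] {n : ℕ} {G : Type}
    {φ : G → (MvPolynomial (Fin n) k ≃ₐ[k] MvPolynomial (Fin n) k)} {f : RatFun k n} :
    f ∈ invariants φ ↔ ∀ g, extend (φ g) f = f := by
  rw [invariants, Subfield.mem_iInf]
  rfl

/-- `Y` has a regular model which is proper over the integers: there is an integral scheme `X'`,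
proper over the integers, all of whose local rings are regular, with the same function field. -/
def HasRegularModel (Y : Scheme.{0}) (_ : IsIntegral Y) : Prop :=
  ∃ (X' : Scheme.{0}) (_ : IsIntegral X') (g : X' ⟶ Spec (CommRingCat.of ℤ)),
    IsProper g ∧
    (∀ x : X',
      (((Module.finrank (IsLocalRing.ResidueField (X'.presheaf.stalk x))
          (IsLocalRing.CotangentSpace (X'.presheaf.stalk x)) : ℕ∞)) : WithBot ℕ∞)
        = ringKrullDim (X'.presheaf.stalk x)) ∧
    Nonempty (X'.functionField ≃+* Y.functionField)

/-- Every integral scheme of finite type over the integers with the function field `K` has a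
regular model which is proper over the integers. -/
def ModelsExist {L : Type} [Field L] (K : Subfield L) : Prop :=
  ∀ (Y : Scheme.{0}) (hY : IsIntegral Y) (s : Y ⟶ Spec (CommRingCat.of ℤ)),
    LocallyOfFiniteType s → QuasiCompact s → Nonempty (Y.functionField ≃+* K) →
    HasRegularModel Y hY

/-- The representation `R` of `GL₂(k) × H` on `k ^ n` is polynomial of degree less than `p` on
`GL₂(k)`, up to powers of the determinant: every entry of the matrix `R (g, 1)` is the product of a
power (with exponent in `ℤ`) of the determinant of `g` and of a polynomial of total degree less
than `p` in the four entries of `g`. For example the direct sums of the representations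
`Sym^a (k ^ 2) ⊗ det^m ⊗ W` with `a < p` and `W` a representation of `H` have this property. -/
def IsPolynomialRep (p : ℕ) {k : Type} [Field k] {n : ℕ} {H : Type} [Group H]
    (R : GL (Fin 2) k × H →* GL (Fin n) k) : Prop :=
  ∀ i j, ∃ (r : MvPolynomial (Fin 2 × Fin 2) k) (m : ℤ), r.totalDegree < p ∧
    ∀ g : GL (Fin 2) k, (R (g, 1)).val i j =
      MvPolynomial.eval (fun s => g.val s.1 s.2) r * (((GeneralLinearGroup.det g) ^ m : kˣ) : k)

/-- The binomial coefficient `a (a - 1) ... (a - m + 1) / m!` of an element of a field (it is used
for `m` less than the characteristic). -/
noncomputable def binom {k : Type} [Field k] (a : k) (m : ℕ) : k :=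
  (∏ i ∈ Finset.range m, (a - i)) / (m.factorial : k)

/-- The `p`-subgroups of the group `G`, which acts by the matrices `M g`, are contained in
one-parameter groups: every `p`-subgroup `P` contains an element `τ` such that every element `g` of
`P` acts by a power `(1 + u) ^ a`, `a ∈ k`, where `u = M τ - 1` and the power is defined by the
binomial series up to `u ^ (p - 1)`. For `P` of order `p` this is always true. -/
def HasOneParameterSubgroups (p : ℕ) {k : Type} [Field k] {n : ℕ} {G : Type} [Group G]
    (M : G → Matrix (Fin n) (Fin n) k) : Prop :=
  ∀ P : Subgroup G, IsPGroup p P → ∃ τ ∈ P, ∀ g ∈ P, ∃ a : k,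
    M g = ∑ m ∈ Finset.range p, binom a m • (M τ - 1) ^ m

/-- The group `G` acts on the polynomial ring by linear substitutions with the matrices `M g`. -/
def ActsBy {k : Type} [Field k] {n : ℕ} {G : Type} [Group G]
    (ρ : G →* (MvPolynomial (Fin n) k ≃ₐ[k] MvPolynomial (Fin n) k))
    (M : G → Matrix (Fin n) (Fin n) k) : Prop :=
  ∀ g j, ρ g (X j) = ∑ i, C (M g i j) * X i

/-- If the group `G` acts on the polynomial ring in `n + 1` variables by linear substitutions with
the matrices `M g`, then every integral scheme of finite type over the integers whose function field
is the function field of the quotient by `G` of projective `n`-space, or of affine `n + 1`-space,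
has a regular model which is proper over the integers. -/
def QuotientsHaveModels {k : Type} [Field k] {n : ℕ} {G : Type} [Group G]
    (M : G → Matrix (Fin (n + 1)) (Fin (n + 1)) k) : Prop :=
  ∀ ρ : G →* (MvPolynomial (Fin (n + 1)) k ≃ₐ[k] MvPolynomial (Fin (n + 1)) k), ActsBy ρ M →
    ModelsExist (projInvariants fun g => ρ g) ∧ ModelsExist (invariants fun g => ρ g)

/-- Let `k` be a finite field of characteristic `p`.
1. Let `G` be a finite group of linear substitutions with matrices `M g` such that the `p`-subgroups
of `G` are contained in one-parameter groups. Then every integral scheme of finite type over the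
integers whose function field is the function field of the quotient by `G` of projective or affine
space has a regular model which is proper over the integers.
2. This holds, for example, for all subgroups `G` of `GL₂(k) × H`, where `H` is a finite group of
order prime to `p`, and the matrices `R g`, where `R` is a representation of `GL₂(k) × H` which is
polynomial of degree less than `p` on `GL₂(k)`, up to powers of the determinant. -/
theorem result (p : ℕ) [Fact p.Prime] (k : Type) [Field k] [Finite k] [CharP k p] (n : ℕ) :
    (∀ (G : Type) [Group G] [Finite G] (M : G → Matrix (Fin (n + 1)) (Fin (n + 1)) k),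
      HasOneParameterSubgroups p M → QuotientsHaveModels M) ∧
    (∀ (H : Type) [Group H] [Finite H], ¬ p ∣ Nat.card H →
      ∀ R : GL (Fin 2) k × H →* GL (Fin (n + 1)) k, IsPolynomialRep p R →
      ∀ G : Subgroup (GL (Fin 2) k × H), QuotientsHaveModels fun g : G => (R g).val) := by
  have key : ∀ (G : Type) [Group G] [Finite G] (M : G → Matrix (Fin (n + 1)) (Fin (n + 1)) k),
      HasOneParameterSubgroups p M → QuotientsHaveModels M := by
    intro G _ _ M hM ρ hρ
    obtain ⟨⟨X1, h1, g1, h2, h3, ⟨h4⟩⟩, X2, h1', g2, h2', h3', ⟨h4'⟩⟩ :=
      Pool.Agent.Helper50.EX.P.fin_gen p k n G M ρ hρ hM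
    constructor
    · rintro Y hY - - - ⟨e⟩
      let e' : Pool.Agent.Helper12.PN.fx0 ρ ≃+* projInvariants (fun g => ρ g) :=
        { toFun := fun x => ⟨x.1, x.2.2, mem_invariants.2 x.2.1⟩
          invFun := fun x => ⟨x.1, mem_invariants.1 x.2.2, x.2.1⟩
          left_inv := fun _ => rfl
          right_inv := fun _ => rfl
          map_mul' := fun _ _ => rfl
          map_add' := fun _ _ => rfl }
      exact ⟨X1, h1, g1, h2, h3, ⟨(h4.trans e').trans e.symm⟩⟩
    · rintro Y hY - - - ⟨e⟩
      let e' : Pool.Agent.Helper12.PN.fx ρ ≃+* invariants (fun g => ρ g) :=
        { toFun := fun x => ⟨x.1, mem_invariants.2 x.2⟩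
          invFun := fun x => ⟨x.1, mem_invariants.1 x.2⟩
          left_inv := fun _ => rfl
          right_inv := fun _ => rfl
          map_mul' := fun _ _ => rfl
          map_add' := fun _ _ => rfl }
      exact ⟨X2, h1', g2, h2', h3', ⟨(h4'.trans e').trans e.symm⟩⟩
  refine ⟨key, ?_⟩
  intro H _ _ hH R hR G
  exact key G (fun g => (R (g : GL (Fin 2) k × H)).val)
    fun P hP => Pool.Agent.Helper50.EX.mat_prod hH hR G P hP

end Pool.Agent.Results.MP_4d1008_ag.OneParameterQuotients
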