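import Pool.Agent.Helper49.SR.Main
import Pool.Graph.R_seed8.W559.Wr.All

/-!
MP_4d1008_ag: regular proper models over the integers, and smooth projective models, of the
quotients `W ^ n / P` of the powers of smooth projective varieties `W` of arbitrary dimension over
fields of characteristic `p`, by all groups `P` of permutations of the factors of order not
divisible by `p ^ 2`, and by all groups which are obtained from these, from the Sylow `p`-subgroups
of the symmetric groups and from certain cyclic groups by direct and wreath products.

Sketch of the proof. Let `p ^ 2` not divide the order of `P`. We consider the cone over the Segre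
embedding of `W ^ n`, on which `P` acts by permutations, and the valuations with maximal value one
on the homogeneous coordinates. Near every point of the cone outside of its vertex there are etale
coordinates among the homogeneous coordinates which are permuted by the inertia group. The
homogeneous ideals generated by the differences `h z - z` of the coordinates and by the iterated
differences `(c - 1) ^ u (h z - z)`, `u < p`, relative to the former are permuted by the group.
Blowing up suitable products of them gives an equivariant projective modification, which is
described by finitely many algebras graded by a free abelian group. At every valuation it is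
compared with a local model, which is given by a basis of the span of the etale coordinates adapted
to the operators `(c - 1) ^ u (h - 1)`. The inertia groups of the modification have order one or
`p`, their ideals of fixed points are invertible, and the criterion of Kiraly and Lütkebohmert shows
that the algebras of invariants are smooth. The degrees (including the degree on the cone) are then
removed one at a time by weighted blow-ups, and a smooth projective model is obtained. The other
groups follow from this by induction, as the quotient by a wreath product is an iterated quotient of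
powers.
-/

set_option autoImplicit false

open AlgebraicGeometry CategoryTheory TensorProduct

namespace Pool.Agent.Results.MP_4d1008_ag.PermutationTowers

/-- The field extension `K` of `k` is the function field of a smooth projective variety over `k`:
there are nonzero elements `z 0, …, z l` (homogeneous coordinates) whose ratios generate `K` and
such that every algebra `k[z 0 / z i, …, z l / z i]` is smooth over `k`. -/
def HasSmoothProjectiveModel (k K : Type) [Field k] [Field K] [Algebra k K] : Prop :=
  ∃ (l : ℕ) (z : Fin (l + 1) → K), (∀ i, z i ≠ 0) ∧
    (∀ i, Algebra.Smooth k (Algebra.adjoin k (Set.range fun j => z j / z i))) ∧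
    IntermediateField.adjoin k (Set.range fun j => z j / z 0) = ⊤

section

variable {k K L : Type} [Field k] [Field K] [Algebra k K] [Field L] [Algebra k L]

/-- The linear map from the tensor power of `K` to `L` which maps `⨂ x i` to the product of the
`e i (x i)`. -/
noncomputable def mulMap {ι : Type} [Fintype ι] (e : ι → K →ₐ[k] L) :
    (⨂[k] _ : ι, K) →ₗ[k] L :=
  PiTensorProduct.lift ((MultilinearMap.mkPiAlgebra k ι L).compLinearMap
    fun i => (e i).toLinearMap)

/-- The automorphisms of `L` over `k` which permute the copies `e i (K)` of `K` by an element of
the permutation group `P`: `σ ∘ e i = e (g i)` for some `g` in `P`. -/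
def permutations {ι : Type} (e : ι → K →ₐ[k] L) (P : Subgroup (Equiv.Perm ι)) :
    Subgroup (L ≃ₐ[k] L) where
  carrier := {σ | ∃ g ∈ P, ∀ i x, σ (e i x) = e (g i) x}
  mul_mem' := (Pool.Agent.W559.Wr.permGrp e P).mul_mem'
  one_mem' := (Pool.Agent.W559.Wr.permGrp e P).one_mem'
  inv_mem' := (Pool.Agent.W559.Wr.permGrp e P).inv_mem'

end

/-- The direct product of two permutation groups, acting on the disjoint union. -/
def directProduct {ι ι' : Type} (P : Subgroup (Equiv.Perm ι)) (P' : Subgroup (Equiv.Perm ι')) :
    Subgroup (Equiv.Perm (ι ⊕ ι')) where
  carrier := {f | ∃ g ∈ P, ∃ g' ∈ P', (∀ i, f (Sum.inl i) = Sum.inl (g i)) ∧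
    ∀ i, f (Sum.inr i) = Sum.inr (g' i)}
  mul_mem' := (Pool.Agent.W559.Wr.prodGrp P P').mul_mem'
  one_mem' := (Pool.Agent.W559.Wr.prodGrp P P').one_mem'
  inv_mem' := (Pool.Agent.W559.Wr.prodGrp P P').inv_mem'

/-- The wreath product of two permutation groups, acting on the product: it consists of the
permutations `(i, j) ↦ (g j (i), h (j))` with all `g j` in `P` and `h` in `P'`. -/
def wreathProduct {ι ι' : Type} (P : Subgroup (Equiv.Perm ι)) (P' : Subgroup (Equiv.Perm ι')) :
    Subgroup (Equiv.Perm (ι × ι')) where
  carrier := {f | ∃ h ∈ P', ∃ g : ι' → Equiv.Perm ι, (∀ j, g j ∈ P) ∧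
    ∀ i j, f (i, j) = (g j i, h j)}
  mul_mem' := (Pool.Agent.W559.Wr.wrGrp P P').mul_mem'
  one_mem' := (Pool.Agent.W559.Wr.wrGrp P P').one_mem'
  inv_mem' := (Pool.Agent.W559.Wr.wrGrp P P').inv_mem'

/-- The permutation groups which are obtained by direct products, wreath products and relabelling
from

* the permutation groups of order not divisible by `p ^ 2`,
* the cyclic permutation groups of order dividing `p ^ 2 * m`, where `m > 0` is such that `k`
  contains a primitive `m`-th root of unity (for instance `m = 1`),
* the Sylow `p`-subgroups of the symmetric groups. -/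
inductive IsTower (p : ℕ) (k : Type) [Field k] : (ι : Type) → Subgroup (Equiv.Perm ι) → Prop
  | small (n : ℕ) (P : Subgroup (Equiv.Perm (Fin n))) (hP : ¬ p ^ 2 ∣ Nat.card P) :
      IsTower p k (Fin n) P
  | cyclic (n : ℕ) (π : Equiv.Perm (Fin n)) (m : ℕ) (hm : 0 < m) (ω : k)
      (hω : IsPrimitiveRoot ω m) (hπ : π ^ (p ^ 2 * m) = 1) :
      IsTower p k (Fin n) (Subgroup.zpowers π)
  | sylow (n : ℕ) (S : Sylow p (Equiv.Perm (Fin n))) : IsTower p k (Fin n) S
  | product (ι ι' : Type) (P : Subgroup (Equiv.Perm ι)) (P' : Subgroup (Equiv.Perm ι')) :
      IsTower p k ι P → IsTower p k ι' P' → IsTower p k (ι ⊕ ι') (directProduct P P')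
  | wreath (ι ι' : Type) (P : Subgroup (Equiv.Perm ι)) (P' : Subgroup (Equiv.Perm ι')) :
      IsTower p k ι P → IsTower p k ι' P' → IsTower p k (ι × ι') (wreathProduct P P')
  | relabel (ι ι' : Type) (f : ι ≃ ι') (P : Subgroup (Equiv.Perm ι)) : IsTower p k ι P →
      IsTower p k ι' (P.map (f.permCongrHom : Equiv.Perm ι ≃* Equiv.Perm ι').toMonoidHom)

/-- Every integral scheme of finite type over `ℤ` with function field isomorphic to the field `F`
has a regular model which is proper over `ℤ`. -/
def HasRegularModels (F : Type) [Field F] : Prop :=
  ∀ (Y : Scheme.{0}) (_ : IsIntegral Y) (s : Y ⟶ Spec (CommRingCat.of ℤ))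
    (_ : LocallyOfFiniteType s) (_ : QuasiCompact s) (_ : Nonempty (Y.functionField ≃+* F)),
    ∃ (X' : Scheme.{0}) (_ : IsIntegral X') (g : X' ⟶ Spec (CommRingCat.of ℤ)),
      IsProper g ∧
      (∀ x : X',
        (((Module.finrank (IsLocalRing.ResidueField (X'.presheaf.stalk x))
            (IsLocalRing.CotangentSpace (X'.presheaf.stalk x)) : ℕ∞)) : WithBot ℕ∞)
          = ringKrullDim (X'.presheaf.stalk x)) ∧
      Nonempty (X'.functionField ≃+* Y.functionField)

theorem towP_of_tower {p : ℕ} {k : Type} [Field k] {ι : Type} {P : Subgroup (Equiv.Perm ι)}
    (h : IsTower p k ι P) : Pool.Agent.Helper49.SR.TowP p k ι P := by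
  induction h with
  | small n P hP => exact .sm n P hP
  | cyclic n π m hm ω hω hπ => exact .cyc n π m hm ω hω hπ
  | sylow n S => exact .syl n S
  | product ι ι' P P' _ _ h h' => exact .prod ι ι' P P' h h'
  | wreath ι ι' P P' _ _ h h' => exact .wr ι ι' P P' h h'
  | relabel ι ι' f P _ h => exact .rel ι ι' f P h

/-- Let `k` be a perfect field of characteristic `p`, `K` the function field of a smooth projective
variety `W` over `k`, `ι` a finite set and `L` a field extension of `k` generated by linearly
disjoint copies `e i (K)`, `i ∈ ι`, of `K`, i.e. the function field of the power `W ^ ι`. Let `P`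
be a group of permutations of `ι` whose order is not divisible by `p ^ 2` or, more generally, which
is obtained from such groups, from the Sylow `p`-subgroups of the symmetric groups and from certain
cyclic groups by direct products, wreath products and relabelling (see `IsTower`).

Then the function field of the quotient `W ^ ι / P` is again the function field of a smooth
projective variety over `k`, and if `k` is finite, then every integral scheme of finite type over
`ℤ` which is birational to `W ^ ι / P` has a regular model proper over `ℤ`. -/
theorem result (p : ℕ) [Fact p.Prime] (k : Type) [Field k] [PerfectField k] [CharP k p]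
    (K : Type) [Field K] [Algebra k K] (hK : HasSmoothProjectiveModel k K)
    (ι : Type) [Fintype ι] (L : Type) [Field L] [Algebra k L] (e : ι → K →ₐ[k] L)
    (hdisj : Function.Injective (mulMap e)) (hgen : ⨆ i, (e i).fieldRange = ⊤)
    (P : Subgroup (Equiv.Perm ι)) (hP : IsTower p k ι P) :
    HasSmoothProjectiveModel k (IntermediateField.fixedField (permutations e P)) ∧
    (Finite k → HasRegularModels (IntermediateField.fixedField (permutations e P))) := by
  classical
  have hQ : Pool.Agent.W559.Wr.QQ k ι P :=
    Pool.Agent.Helper49.SR.qq_of_qqR (Pool.Agent.Helper49.SR.qqR_tow (towP_of_tower hP) _)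
  have h1 : HasSmoothProjectiveModel k (IntermediateField.fixedField (permutations e P)) :=
    hQ K L e hdisj hgen hK
  refine ⟨h1, ?_⟩
  intro hfin Y _ s _ _ hY
  obtain ⟨X', hX', g, h2, h3, ⟨h4⟩⟩ := Pool.Agent.W559.Wr.regular_of_spm h1
  obtain ⟨ε⟩ := hY
  exact ⟨X', hX', g, h2, h3, ⟨h4.trans ε.symm⟩⟩

end Pool.Agent.Results.MP_4d1008_ag.PermutationTowers
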