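import Pool.Agent.Helper50.Quad.Main

/-!
MP_4d1008_ag: regular proper models over `ℤ` for the integral schemes of finite type whose function
field, over a finite field, is given by `p`-th roots of sums of products of two additive
polynomials, in any number of variables, also in sums with arbitrary functions of two variables
and with nondegenerate polynomials.

An affine `p`-polynomial is `a + ∑ i j, a i j * x i ^ (p ^ j)`. The theorem applies for example to
all function fields over a finite field with the equation

  `z ^ p = f (x 1, ..., x l) + f 1 (s 1, t 1) + ... + f m (s m, t m) + ∑ j, y j ^ (d j)`,

`p` not dividing `d j`, where the `f i` are arbitrary, and where `f` is a sum of products of two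
affine `p`-polynomials, i.e. each monomial of `f` is a product of at most two powers
`x i ^ (p ^ j)`.

The proof. Let `V` be the space, over a sufficiently large finite field `k₀`, of the affine
`p`-polynomials of degree at most `p ^ D`, `W` the subspace of the `p`-th powers of elements of
`V`, and `f = ∑ t, v t * v' t`. On a suitable log smooth proper model all elements `v` of `V ∖ 0`
are locally monomials, and all of these monomials and all products of two of them are
comparable. Thus on each chart the elements of `V` form a chain of subspaces with respect to
divisibility, and there is a basis of `V` adapted to this chain and containing a basis of `W`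
(`Adapt`). If `c b` denotes the coordinate of a member `b ∉ W` of the basis, and
`v b = ∑ t, (c b (v t) * v' t + c b (v' t) * v t) ∈ V`, then `f` is the sum of a `p`-th power and of
terms `b * b'` with `b ∉ W` which are divisible by `b * v b` (`Form`). Let `x ^ n` be the monomial
of the smallest of the products `b * v b`; the exponents `n` do not depend on the chart
(`indep_chart`). The derivative in the direction of the smallest `b` is tangent to the
arrangement (`dir_tan`) and takes the remaining part of `f` to a unit times `x ^ n` (`point_vec`).
Such log smooth normal forms, jointly for `f` and for the functions on the base, yield regular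
models of the extension by the `p`-th roots by the library.

helper50; built on the library of the starting file MP_4d1008_ag.SchonSurfaceModels (helper214,
helper418 and the helpers named there).
-/

set_option autoImplicit false

open AlgebraicGeometry CategoryTheory Pool.Agent.Helper50.Quad

namespace Pool.Agent.Results.MP_4d1008_ag.QuadraticInseparableCovers

/-- Let `k` be a finite field of characteristic `p`. Let `E 1, ..., E m` be linearly disjoint
function fields of smooth projective surfaces over `k` in the field extension `K` of `k` (or `E i =
k(a i 0, a i 1)` with algebraically independent `a i j`; `m = 0` is allowed). Let `y 1, ..., y n ≠ 0`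
be elements of `K` with `G i (u, y) = 0`, where the `u a ≠ 0` are products of elements of the
`E i` and the Laurent polynomials `G i` are schön equations of codimension at least `c` with respect
to the variables `Y`, such that `d = n - c` of the `y j` are algebraically independent over the
field generated by the `E i` (`n = 0` is allowed). Let `x 1, ..., x l` be elements of `K` which
are algebraically independent over the field generated by the `E i` and the `y j`, and let `f` be
a sum of products of two affine `p`-polynomials in the `x i` over `k`. Suppose that `K` is
generated by the `E i`, the `y j`, the `x i` and elements `w j` such that the `w j ^ p` are linear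
combinations with coefficients in `k` of `f`, of products `g t 1 * ... * g t m` of elements
`g t i ∈ E i`, where for each `i` at most one of the `g t i` is not a `p`-th power in `E i`, and
of the elements `F t (u, y)`, where the Laurent polynomials `F t` are strongly nondegenerate on
the subscheme given by the `G i`. Then every integral scheme of finite type over `ℤ` whose function
field is isomorphic to `K` has a regular model which is proper over `ℤ`. -/
theorem result (p : ℕ) [Fact p.Prime] (k K : Type) [Field k] [Finite k] [CharP k p]
    [Field K] [Algebra k K] (m n h c d l q r s o : ℕ) (E : Fin m → IntermediateField k K)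
    (u : Fin h → K) (y : Fin n → K) (G : Fin q → (Fin h ⊕ Fin n → ℤ) →₀ k) (ρ : Fin d → Fin n)
    (g : Fin o → ∀ i, E i) (F : Fin s → (Fin h ⊕ Fin n → ℤ) →₀ k) (x : Fin l → K) (f : K)
    (w : Fin r → K) (hK : IsQuadraticCover E p c u y G ρ g F x f w)
    (Y : Scheme.{0}) (_ : IsIntegral Y) (φ : Y ⟶ Spec (CommRingCat.of ℤ))
    (_ : LocallyOfFiniteType φ) (_ : QuasiCompact φ)
    (_ : Nonempty (Y.functionField ≃+* K)) :
    ∃ (X' : Scheme.{0}) (_ : IsIntegral X') (φ' : X' ⟶ Spec (CommRingCat.of ℤ)),
      IsProper φ' ∧
      (∀ x : X',
        (((Module.finrank (IsLocalRing.ResidueField (X'.presheaf.stalk x))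
            (IsLocalRing.CotangentSpace (X'.presheaf.stalk x)) : ℕ∞)) : WithBot ℕ∞)
          = ringKrullDim (X'.presheaf.stalk x)) ∧
      Nonempty (X'.functionField ≃+* Y.functionField) := by
  obtain ⟨T', I, hT', hI, M, Γ, hFn, hR⟩ :=
    quad_models hK Empty (fun b => b.elim) (fun b => b.elim)
  obtain ⟨X', hX', g', h1, h2, ⟨h3⟩⟩ := Pool.Agent.W418.Z.regular_of_LM M (fun t x => by
    obtain ⟨a, ha, b, hb, hb0, h⟩ := hR t x
    exact ⟨a, ha, b, hb, hb0, by rw [h, div_eq_mul_inv]⟩)
  obtain ⟨ε⟩ := ‹Nonempty (Y.functionField ≃+* K)›
  exact ⟨X', hX', g', h1, h2, ⟨h3.trans ε.symm⟩⟩

end Pool.Agent.Results.MP_4d1008_ag.QuadraticInseparableCovers
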